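import Pool.Agent.Y873.CC.Low
import Pool.Agent.H834R6.CC.Gadget
import Pool.Agent.H834R6.CC.Upper
import Pool.Agent.H834R6.CC.Final

/-! Explicit error term for the number of cuts (MP_09cb38_co). -/

set_option autoImplicit false

namespace Pool.Agent.Y873.CC

open Pool.Agent.H282R2 Pool.Agent.H834R6.CC Set Filter Topology

theorem half_pow (Q : ℕ) (hQ : 1 ≤ Q) (L : ℕ) :
    ((Q : ℝ) - 1) ^ (Q * L) * 2 ^ L ≤ (Q : ℝ) ^ (Q * L) := by
  have hQ0 : (0 : ℝ) < Q := by exact_mod_cast hQ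
  have hQ1 : (1 : ℝ) ≤ Q := by exact_mod_cast hQ
  have h1 : (1 - 1 / (Q : ℝ)) ^ Q ≤ Real.exp (-1) := Real.one_sub_div_pow_le_exp_neg hQ1
  have h2 : Real.exp (-1) ≤ 1 / 2 := by
    rw [Real.exp_neg, inv_eq_one_div]
    apply one_div_le_one_div_of_le (by norm_num)
    have := Real.add_one_le_exp (1 : ℝ)
    linarith
  have h3 : ((Q : ℝ) - 1) ^ Q * 2 ≤ (Q : ℝ) ^ Q := by
    have e1 : (Q : ℝ) - 1 = Q * (1 - 1 / (Q : ℝ)) := by field_simp
    rw [e1, mul_pow]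
    have h4 : (0 : ℝ) < (Q : ℝ) ^ Q := by positivity
    nlinarith
  have h5 : 0 ≤ ((Q : ℝ) - 1) ^ Q * 2 := by
    have : 0 ≤ (Q : ℝ) - 1 := by linarith
    positivity
  calc ((Q : ℝ) - 1) ^ (Q * L) * 2 ^ L = (((Q : ℝ) - 1) ^ Q * 2) ^ L := by
        rw [mul_pow, ← pow_mul]
    _ ≤ ((Q : ℝ) ^ Q) ^ L := pow_le_pow_left₀ h5 h3 L
    _ = _ := by rw [← pow_mul]

theorem card_gadget : Fintype.card (PI × Fin 5) = 405 := by
  simp [PI, Fintype.card_prod]

theorem card_Q (k : ℕ) : Fintype.card (Fin (3 * k - 3) × (PI × Fin 5)) = (3 * k - 3) * 405 := by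
  rw [Fintype.card_prod, card_gadget, Fintype.card_fin]

theorem mem_cut (n : ℕ) : (n - 1) / 2 ∈ CutNumbers n := by
  intro v hv
  exact ⟨(Finset.Ioo 0 n).filter Even, Finset.filter_subset _ _, Final.card_even n, upper n v hv⟩

/-- `f(n) > n / 2 - n / k` if `n ≥ 2 ^ (1216 k (κ + 11)²)`, `k ≤ 2 ^ κ` -/
theorem f_lower (k κ n : ℕ) (hk : 2 ≤ k) (hκ : k ≤ 2 ^ κ)
    (hn : 2 ^ (1216 * k * (κ + 11) ^ 2) ≤ n) : (1 / 2 - 1 / (k : ℝ)) * n < (f n : ℝ) := by
  classical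
  have hk0 : (0 : ℝ) < k := by
    have : 0 < k := by omega
    exact_mod_cast this
  set Q : ℕ := (3 * k - 3) * 405 with hQ
  have hQ1 : 1 ≤ Q := by omega
  have hQk : Q ≤ 1215 * k := by omega
  set h : ℕ := Q * (κ + 2) with hh
  have h1 : ((Q : ℝ) - 1) ^ h ≤ (1 / (k : ℝ)) / 4 * (Q : ℝ) ^ h := by
    have e1 := half_pow Q hQ1 (κ + 2)
    have e2 : (4 * k : ℝ) ≤ 2 ^ (κ + 2) := by
      have : 4 * k ≤ 2 ^ (κ + 2) := by
        rw [pow_add]
        omega
      exact_mod_cast this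
    have e3 : 0 ≤ ((Q : ℝ) - 1) ^ h := by
      have : (1 : ℝ) ≤ Q := by exact_mod_cast hQ1
      have : 0 ≤ (Q : ℝ) - 1 := by linarith
      positivity
    rw [← hh] at e1
    have e4 : ((Q : ℝ) - 1) ^ h * (4 * k) ≤ (Q : ℝ) ^ h :=
      (mul_le_mul_of_nonneg_left e2 e3).trans e1
    rw [div_div, div_mul_eq_mul_div, one_mul, le_div_iff₀ (by positivity)]
    linarith
  have h2 : ∃ v : ℕ → E3, IsChain n v ∧ ∀ C : Finset ℕ, C ⊆ Finset.Ioo 0 n →
      (C.card : ℝ) ≤ (1 / 2 - 1 / (k : ℝ)) * n → ¬ Unlockable n C v := by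
    refine lower_explicit (PI × Fin 5) gadget (1 / (k : ℝ)) (by positivity) (3 * k) h (by omega)
      (by push_cast; field_simp; exact le_rfl) ?_ n ?_
    · rw [card_Q, ← hQ]
      exact h1
    · rw [card_Q, ← hQ]
      have hQpos : 1 ≤ Q ^ h := Nat.one_le_pow _ _ hQ1
      have a1 : (Q - 1) ^ h + 1 ≤ 2 * Q ^ h := by
        have : (Q - 1) ^ h ≤ Q ^ h := Nat.pow_le_pow_left (by omega) h
        omega
      have a2 : ⌈4 * ((((Q - 1) ^ h : ℕ) : ℝ) + 1) / (3 * (1 / (k : ℝ)))⌉₊ ≤ 3 * k * Q ^ h := by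
        rw [Nat.ceil_le]
        have a3 : (((Q - 1) ^ h : ℕ) : ℝ) + 1 ≤ 2 * ((Q ^ h : ℕ) : ℝ) := by exact_mod_cast a1
        rw [div_le_iff₀ (by positivity)]
        push_cast at a3 ⊢
        have a4 : 3 * (k : ℝ) * (Q : ℝ) ^ h * (3 * (1 / (k : ℝ))) = 9 * (Q : ℝ) ^ h := by
          field_simp
          ring
        rw [a4]
        have a5 : (0 : ℝ) ≤ (Q : ℝ) ^ h := by positivity
        linarith
      have a6 : 3 * k * (⌈4 * ((((Q - 1) ^ h : ℕ) : ℝ) + 1) / (3 * (1 / (k : ℝ)))⌉₊ + 1) ≤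
          16 * k ^ 2 * Q ^ h := by
        calc 3 * k * (⌈4 * ((((Q - 1) ^ h : ℕ) : ℝ) + 1) / (3 * (1 / (k : ℝ)))⌉₊ + 1)
            ≤ 3 * k * (3 * k * Q ^ h + 1) := Nat.mul_le_mul_left _ (Nat.succ_le_succ a2)
          _ ≤ 3 * k * (3 * k * Q ^ h + k * Q ^ h) := by
              apply Nat.mul_le_mul_left
              have : 1 ≤ k * Q ^ h := Nat.mul_pos (by omega) hQpos
              omega
          _ = 12 * k ^ 2 * Q ^ h := by ring
          _ ≤ 16 * k ^ 2 * Q ^ h := by gcongr; norm_num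
      refine a6.trans (le_trans ?_ hn)
      have b1 : Q ≤ 2 ^ (κ + 11) := by
        calc Q ≤ 1215 * k := hQk
          _ ≤ 2048 * 2 ^ κ := Nat.mul_le_mul (by norm_num) hκ
          _ = 2 ^ (κ + 11) := by rw [pow_add]; ring
      calc 16 * k ^ 2 * Q ^ h ≤ 16 * (2 ^ κ) ^ 2 * (2 ^ (κ + 11)) ^ h := by gcongr
        _ = 2 ^ (4 + κ * 2 + (κ + 11) * h) := by
            rw [← pow_mul, ← pow_mul, pow_add, pow_add]; norm_num
        _ ≤ 2 ^ (1216 * k * (κ + 11) ^ 2) := by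
            apply Nat.pow_le_pow_right (by norm_num)
            have c1 : (κ + 11) * h ≤ (κ + 11) * (1215 * k * (κ + 11)) := by
              apply Nat.mul_le_mul_left
              rw [hh]
              exact Nat.mul_le_mul hQk (by omega)
            have c2 : 4 + κ * 2 ≤ k * (κ + 11) ^ 2 := by
              calc 4 + κ * 2 ≤ 2 * (κ + 11) ^ 2 := by nlinarith
                _ ≤ k * (κ + 11) ^ 2 := Nat.mul_le_mul_right _ hk
            calc 4 + κ * 2 + (κ + 11) * h ≤ k * (κ + 11) ^ 2 + (κ + 11) * (1215 * k * (κ + 11)) := by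
                  omega
              _ = 1216 * k * (κ + 11) ^ 2 := by ring
  obtain ⟨v, hv, hbad⟩ := h2
  have hf : f n ∈ CutNumbers n := Nat.sInf_mem ⟨_, mem_cut n⟩
  obtain ⟨C, hC, hcard, hU⟩ := hf v hv
  by_contra hcon
  rw [← hcard] at hcon
  exact hbad C hC (not_lt.1 hcon) hU

/-- the bound in terms of `m = ⌊log₂ n⌋` and `μ = ⌊log₂ m⌋ + 1` -/
theorem f_lower2 (n : ℕ) (hn : 16 ≤ n) : (n : ℝ) / 2 -
    350208 * ((Nat.log 2 (Nat.log 2 n) + 1 : ℕ) : ℝ) ^ 2 / (Nat.log 2 n : ℝ) * n ≤ (f n : ℝ) := by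
  set m := Nat.log 2 n with hm
  set μ := Nat.log 2 m + 1 with hμ
  have hm4 : 4 ≤ m := Nat.le_log_of_pow_le (by norm_num) (by omega)
  have hμ1 : 1 ≤ μ := by omega
  have hmn : 2 ^ m ≤ n := Nat.pow_log_le_self 2 (by omega)
  have hmμ : m ≤ 2 ^ μ := (Nat.lt_pow_succ_log_self (by norm_num) m).le
  have hm0 : (0 : ℝ) < m := by
    have : 0 < m := by omega
    exact_mod_cast this
  have hμ0 : (0 : ℝ) < μ := by exact_mod_cast hμ1
  have hn0 : (0 : ℝ) < n := by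
    have : 0 < n := by omega
    exact_mod_cast this
  clear_value m μ
  set k := m / (175104 * μ ^ 2) with hk
  have hk1 : 175104 * μ ^ 2 * k ≤ m := Nat.mul_div_le _ _
  have hk2 : m < 175104 * μ ^ 2 * (k + 1) := Nat.lt_mul_div_succ m (by positivity)
  have hk2' : (m : ℝ) ≤ 175104 * (μ : ℝ) ^ 2 * ((k : ℝ) + 1) := by exact_mod_cast hk2.le
  clear_value k
  rcases Nat.lt_or_ge k 2 with h | h
  · have h1 : (k : ℝ) + 1 ≤ 2 := by
      have : k + 1 ≤ 2 := by omega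
      exact_mod_cast this
    have h2 : 1 ≤ 350208 * (μ : ℝ) ^ 2 / m := by
      rw [le_div_iff₀ hm0]
      nlinarith [sq_nonneg (μ : ℝ)]
    have h3 : (0 : ℝ) ≤ f n := Nat.cast_nonneg _
    nlinarith
  · have hkm : k ≤ m := by
      calc k ≤ 175104 * μ ^ 2 * k := Nat.le_mul_of_pos_left _ (by positivity)
        _ ≤ m := hk1
    have h1 := f_lower k μ n h (hkm.trans hmμ) (by
      refine le_trans (Nat.pow_le_pow_right (by norm_num) ?_) hmn
      calc 1216 * k * (μ + 11) ^ 2 ≤ 1216 * k * (12 * μ) ^ 2 := by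
            gcongr
            omega
        _ = 175104 * μ ^ 2 * k := by ring
        _ ≤ m := hk1)
    have hkr : (0 : ℝ) < k := by
      have : 0 < k := by omega
      exact_mod_cast this
    have h2 : 1 / (k : ℝ) ≤ 350208 * (μ : ℝ) ^ 2 / m := by
      rw [div_le_div_iff₀ hkr hm0]
      have h3 : (k : ℝ) + 1 ≤ 2 * k := by
        have : k + 1 ≤ 2 * k := by omega
        exact_mod_cast this
      nlinarith [sq_nonneg (μ : ℝ)]
    have h4 : 1 / (k : ℝ) * n ≤ 350208 * (μ : ℝ) ^ 2 / m * n := mul_le_mul_of_nonneg_right h2 hn0.le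
    linarith

/-- the explicit error term -/
theorem f_lower3 (n : ℕ) (hn : 16 ≤ n) :
    (n : ℝ) / 2 - 12000000 * (Real.log (Real.log n) ^ 2 / Real.log n) * n ≤ (f n : ℝ) := by
  have h0 := f_lower2 n hn
  set m := Nat.log 2 n with hm
  have hm4 : 4 ≤ m := Nat.le_log_of_pow_le (by norm_num) (by omega)
  have hmn : 2 ^ m ≤ n := Nat.pow_log_le_self 2 (by omega)
  have hnm : n < 2 ^ (m + 1) := Nat.lt_pow_succ_log_self (by norm_num) n
  have hmμ : 2 ^ (Nat.log 2 m) ≤ m := Nat.pow_log_le_self 2 (by omega)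
  have hm4' : (4 : ℝ) ≤ m := by exact_mod_cast hm4
  have hm0 : (0 : ℝ) < m := by linarith
  have hn16 : (16 : ℝ) ≤ n := by exact_mod_cast hn
  have hn0 : (0 : ℝ) < n := by linarith
  clear_value m
  have l2 := Real.log_two_gt_d9
  have l2' := Real.log_two_lt_d9
  have e1 := Real.exp_one_lt_d9
  -- `log n ≥ e`
  have hlog : Real.exp 1 ≤ Real.log n := by
    have h1 : Real.log 16 ≤ Real.log n := Real.log_le_log (by norm_num) hn16
    have h2 : Real.log 16 = 4 * Real.log 2 := by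
      rw [show (16 : ℝ) = 2 ^ 4 by norm_num, Real.log_pow]
      norm_num
    linarith
  have hlog0 : 0 < Real.log n := lt_of_lt_of_le (Real.exp_pos 1) hlog
  have hll : 1 ≤ Real.log (Real.log n) := by
    rw [Real.le_log_iff_exp_le hlog0]
    exact hlog
  -- `log n ≤ 2 m`
  have h1 : Real.log n ≤ 2 * m := by
    have h2 : (n : ℝ) ≤ 2 ^ (m + 1) := by exact_mod_cast hnm.le
    have h3 : Real.log n ≤ ((m + 1 : ℕ) : ℝ) * Real.log 2 := by
      rw [← Real.log_pow]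
      exact Real.log_le_log hn0 h2
    push_cast at h3
    nlinarith
  -- `m ≤ 2 log n`
  have h2 : (m : ℝ) ≤ 2 * Real.log n := by
    have h3 : (2 : ℝ) ^ m ≤ n := by exact_mod_cast hmn
    have h4 : (m : ℝ) * Real.log 2 ≤ Real.log n := by
      rw [← Real.log_pow]
      exact Real.log_le_log (by positivity) h3
    nlinarith
  have h3 : (Nat.log 2 m : ℝ) * Real.log 2 ≤ Real.log 2 + Real.log (Real.log n) := by
    rw [← Real.log_mul (by norm_num) hlog0.ne', ← Real.log_pow]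
    apply Real.log_le_log (by positivity)
    have h4 : (2 : ℝ) ^ (Nat.log 2 m) ≤ m := by exact_mod_cast hmμ
    linarith
  have h4 : (Nat.log 2 m : ℝ) ≤ 1 + 2 * Real.log (Real.log n) := by
    have : (0 : ℝ) ≤ (Nat.log 2 m : ℝ) := Nat.cast_nonneg _
    nlinarith
  have h5 : ((Nat.log 2 m + 1 : ℕ) : ℝ) ≤ 4 * Real.log (Real.log n) := by
    push_cast
    linarith
  have h6 : 350208 * ((Nat.log 2 m + 1 : ℕ) : ℝ) ^ 2 / (m : ℝ) ≤
      12000000 * (Real.log (Real.log n) ^ 2 / Real.log n) := by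
    rw [← mul_div_assoc, div_le_div_iff₀ hm0 hlog0]
    have h7 : ((Nat.log 2 m + 1 : ℕ) : ℝ) ^ 2 ≤ 16 * Real.log (Real.log n) ^ 2 := by
      calc ((Nat.log 2 m + 1 : ℕ) : ℝ) ^ 2 ≤ (4 * Real.log (Real.log n)) ^ 2 :=
            pow_le_pow_left₀ (Nat.cast_nonneg _) h5 2
        _ = _ := by ring
    have h8 : 0 ≤ Real.log (Real.log n) ^ 2 := sq_nonneg _
    calc 350208 * ((Nat.log 2 m + 1 : ℕ) : ℝ) ^ 2 * Real.log n
        ≤ 350208 * (16 * Real.log (Real.log n) ^ 2) * (2 * m) := by gcongr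
      _ = 11206656 * Real.log (Real.log n) ^ 2 * m := by ring
      _ ≤ 12000000 * Real.log (Real.log n) ^ 2 * m := by gcongr; norm_num
  have h9 := mul_le_mul_of_nonneg_right h6 hn0.le
  linarith

end Pool.Agent.Y873.CC
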