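import Pool.Agent.H834R6.CC.LowerCore
import Pool.Agent.H834R6.CC.Tree
import Pool.Agent.H834R6.CC.Count
import Pool.Agent.H834R6.CC.Place
import Pool.Agent.H834R6.CC.Window

/-! The lower bound for the number of cuts (MP_09cb38_co) with explicit parameters. The two proofs are those of
the starting library (files Count and LowerCore) with the bound for `n` made explicit. -/

set_option autoImplicit false
set_option maxHeartbeats 4000000

namespace Pool.Agent.Y873.CC

open Pool.Agent.H282R2 Pool.Agent.H834R6.CC Set Filter Topology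

/-- the counting lemma of the starting library with an explicit bound for `n` -/
theorem count_explicit (ε : ℝ) (hε : 0 < ε) (r Q h : ℕ) (hr : 4 ≤ r) (hr' : 3 ≤ ε * r) (hQ : 1 ≤ Q)
    (hh : ((Q : ℝ) - 1) ^ h ≤ (ε / 4) * (Q : ℝ) ^ h) :
    ∀ n, r * (⌈4 * ((((Q - 1) ^ h : ℕ) : ℝ) + 1) / (3 * ε)⌉₊ + 1) ≤ n → ∀ C : Finset ℕ, C ⊆ Finset.Ioo 0 n → (C.card : ℝ) ≤ (1 / 2 - ε) * n →
      ∃ j < r - 3, (Q - 1) ^ h < (((Finset.range ((n + 1) / r)).filter
        (fun β => r * β + j + 1 ∉ C ∧ r * β + j + 2 ∉ C)).image (fun β => β % (Q ^ h))).card := by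
  set A : ℕ := (Q - 1) ^ h with hA
  set M : ℕ := Q ^ h with hM
  have hM0 : 0 < M := Nat.pow_pos (by omega)
  have hAM : (A : ℝ) ≤ ε / 4 * M := by
    rw [hA, hM]
    push_cast
    rw [Nat.cast_sub hQ]
    simpa using hh
  set K : ℕ := ⌈4 * ((A : ℝ) + 1) / (3 * ε)⌉₊ + 1 with hK
  have hKgt : 4 * ((A : ℝ) + 1) / (3 * ε) < K := by
    rw [hK]
    push_cast
    have := Nat.le_ceil (4 * ((A : ℝ) + 1) / (3 * ε))
    linarith
  intro n hn C hC hcard
  by_contra hcon
  push Not at hcon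
  set m : ℕ := (n + 1) / r with hm
  have hr0 : 0 < r := by omega
  have hmK : K ≤ m := by
    rw [hm, Nat.le_div_iff_mul_le hr0, mul_comm]
    omega
  have hn1 : 1 ≤ n := by
    have : 1 ≤ K := by omega
    nlinarith
  have hnm : n < r * (m + 1) := by
    have := Nat.lt_mul_div_succ (n + 1) hr0
    rw [← hm] at this
    omega
  have h1 : ∀ j ∈ Finset.range (r - 3), ((Finset.range m).filter
      (fun β => r * β + j + 1 ∉ C ∧ r * β + j + 2 ∉ C)).card ≤ (m / M + 1) * A := by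
    intro j hj
    have h2 := Finset.card_le_mul_card_image (f := fun β => β % M) ((Finset.range m).filter
      (fun β => r * β + j + 1 ∉ C ∧ r * β + j + 2 ∉ C)) (m / M + 1)
      (fun a _ => Count.res m M a _ (Finset.filter_subset _ _))
    exact h2.trans (Nat.mul_le_mul_left _ (hcon j (Finset.mem_range.1 hj)))
  have h2 := Count.surv m r C hr
  have h3 := Finset.sum_le_sum h1
  rw [Finset.sum_const, Finset.card_range, smul_eq_mul] at h3
  have h4 : m * (r - 3) ≤ (r - 3) * ((m / M + 1) * A) + 2 * C.card := by omega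
  -- real version
  have h5 : (m : ℝ) * ((r : ℝ) - 3) ≤ ((r : ℝ) - 3) * ((((m / M : ℕ) : ℝ) + 1) * A) + 2 * C.card := by
    have h6 : (((r - 3 : ℕ)) : ℝ) = (r : ℝ) - 3 := by
      rw [Nat.cast_sub (by omega)]
      norm_num
    have h7 : ((m * (r - 3) : ℕ) : ℝ) ≤ (((r - 3) * ((m / M + 1) * A) + 2 * C.card : ℕ) : ℝ) := by
      exact_mod_cast h4
    push_cast at h7
    rw [h6] at h7
    exact h7
  have h8 : (((m / M : ℕ)) : ℝ) * A ≤ ε / 4 * m := by
    have h9 : (((m / M : ℕ)) : ℝ) * M ≤ m := by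
      exact_mod_cast Nat.div_mul_le_self m M
    calc (((m / M : ℕ)) : ℝ) * A ≤ (((m / M : ℕ)) : ℝ) * (ε / 4 * M) :=
          mul_le_mul_of_nonneg_left hAM (Nat.cast_nonneg _)
      _ = ε / 4 * ((((m / M : ℕ)) : ℝ) * M) := by ring
      _ ≤ ε / 4 * m := mul_le_mul_of_nonneg_left h9 (by positivity)
  have hr4 : (4 : ℝ) ≤ r := by exact_mod_cast hr
  have hn1' : (1 : ℝ) ≤ n := by exact_mod_cast hn1
  have hnm' : (n : ℝ) ≤ r * (m + 1) := by exact_mod_cast hnm.le
  have hC0 : (0 : ℝ) ≤ C.card := Nat.cast_nonneg _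
  have hε2 : 0 ≤ 1 / 2 - ε := by
    by_contra hneg
    push Not at hneg
    nlinarith
  have h10 : 2 * (C.card : ℝ) ≤ (1 - 2 * ε) * (r * (m + 1)) := by
    have h11 : (1 / 2 - ε) * n ≤ (1 / 2 - ε) * (r * (m + 1)) := mul_le_mul_of_nonneg_left hnm' hε2
    linarith
  have hA0 : (0 : ℝ) ≤ A := Nat.cast_nonneg _
  have hm0 : (0 : ℝ) ≤ m := Nat.cast_nonneg _
  have h12 : ((r : ℝ) - 3) * ((((m / M : ℕ) : ℝ) + 1) * A) ≤ r * (ε / 4 * m + A) := by
    have h13 : (((m / M : ℕ) : ℝ) + 1) * A ≤ ε / 4 * m + A := by linarith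
    have h14 : 0 ≤ (((m / M : ℕ) : ℝ) + 1) * A := by positivity
    nlinarith
  have h15 : (m : ℝ) * (3 / 4 * (ε * r)) ≤ r * (A + 1) := by
    nlinarith [mul_nonneg hm0 (sub_nonneg.2 hr')]
  have hmK' : (K : ℝ) ≤ m := by exact_mod_cast hmK
  have h16 : 4 * ((A : ℝ) + 1) < m * (3 * ε) := by
    rw [div_lt_iff₀ (by positivity)] at hKgt
    have := mul_le_mul_of_nonneg_right hmK' (by positivity : 0 ≤ 3 * ε)
    linarith
  have hrpos : (0 : ℝ) < r := by linarith
  nlinarith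

/-- the lower bound of the starting library with explicit parameters -/
theorem lower_explicit (G : Type) [Fintype G] [DecidableEq G] [Nonempty G]
    (gadget : ∀ U : Set T3, IsOpen U → U.Nonempty →
      ∃ X : G → T3, (∀ i, X i ∈ U) ∧ ∀ᶠ Y in 𝓝 X, Trap Y) (ε : ℝ) (hε : 0 < ε)
    (r h : ℕ) (hr : 4 ≤ r) (hr' : 3 ≤ ε * r)
    (hh : (((Fintype.card (Fin (r - 3) × G) : ℕ) : ℝ) - 1) ^ h ≤
      (ε / 4) * ((Fintype.card (Fin (r - 3) × G) : ℕ) : ℝ) ^ h) (n : ℕ)
    (hn : r * (⌈4 * ((((Fintype.card (Fin (r - 3) × G) - 1) ^ h : ℕ) : ℝ) + 1) / (3 * ε)⌉₊ + 1) ≤ n) :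
    ∃ v : ℕ → E3, IsChain n v ∧ ∀ C : Finset ℕ, C ⊆ Finset.Ioo 0 n →
      (C.card : ℝ) ≤ (1 / 2 - ε) * n → ¬ Unlockable n C v := by
  classical
  have hJ : Nonempty (Fin (r - 3)) := ⟨⟨0, by omega⟩⟩
  set Q : ℕ := Fintype.card (Fin (r - 3) × G) with hQdef
  have hQ : 1 ≤ Q := Fintype.card_pos
  have hQ' : (1 : ℝ) ≤ Q := by exact_mod_cast hQ
  have hN := count_explicit ε hε r Q h hr hr' hQ hh
  obtain ⟨W, hW, hWj⟩ := tree (𝔹 := Fin r → E3) (T := T3) (ι := G) (J := Fin (r - 3))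
    (fun j => Lower.pr j) (fun j => Lower.pr_cont j) (fun j => Lower.pr_open j) Trap gadget h Set.univ isOpen_univ
    Set.univ_nonempty
  -- boxes
  have hbox : ∀ w : Fin h → Fin (r - 3) × G, ∃ u : Fin r → Set E3,
      (∀ x, IsOpen (u x) ∧ (u x).Nonempty) ∧ Set.univ.pi u ⊆ W w := by
    intro w
    obtain ⟨h1, ⟨f, hf⟩, -⟩ := hW w
    obtain ⟨u, hu, hu'⟩ := (isOpen_pi_iff'.mp h1) f hf
    exact ⟨u, fun x => ⟨(hu x).1, ⟨f x, (hu x).2⟩⟩, hu'⟩
  choose O hO hO' using hbox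
  -- words
  have hcard : Fintype.card (Fin h → Fin (r - 3) × G) = Q ^ h := by
    rw [Fintype.card_fun, Fintype.card_fin]
  have hQh : 0 < Q ^ h := Nat.pow_pos hQ
  let e : (Fin h → Fin (r - 3) × G) ≃ Fin (Q ^ h) := Fintype.equivFinOfCardEq hcard
  let wd : ℕ → (Fin h → Fin (r - 3) × G) := fun m => e.symm ⟨m % Q ^ h, Nat.mod_lt _ hQh⟩
  have hwd : ∀ m, wd (m % Q ^ h) = wd m := by
    intro m
    simp only [wd, Nat.mod_mod]
  have hwinj : ∀ a b, a < Q ^ h → b < Q ^ h → wd a = wd b → a = b := by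
    intro a b ha hb hab
    have h1 := e.symm.injective hab
    have h2 : a % Q ^ h = b % Q ^ h := congrArg Fin.val h1
    rwa [Nat.mod_eq_of_lt ha, Nat.mod_eq_of_lt hb] at h2
  have hr0 : 0 < r := by omega
  obtain ⟨v, hv, hchain⟩ := place n (fun x => O (wd (x / r)) ⟨x % r, Nat.mod_lt _ hr0⟩)
    (fun x => (hO _ _).1) (fun x => (hO _ _).2)
  refine ⟨v, hchain, fun C hC hCc hU => ?_⟩
  obtain ⟨j, hj, hjc⟩ := hN n hn C hC hCc
  set F := (Finset.range ((n + 1) / r)).filter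
        (fun β => r * β + j + 1 ∉ C ∧ r * β + j + 2 ∉ C) with hF
  have hZc : (Fintype.card (Fin (r - 3) × G) - 1) ^ h < (F.image wd).card := by
    have h1 : (F.image wd) = (F.image (fun β => β % (Q ^ h))).image wd := by
      rw [Finset.image_image]
      apply Finset.image_congr
      intro β _
      exact (hwd β).symm
    rw [h1, Finset.card_image_of_injOn]
    · exact hjc
    · intro a ha b hb hab
      simp only [Finset.coe_image, Set.mem_image] at ha hb
      obtain ⟨x, -, rfl⟩ := ha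
      obtain ⟨y, -, rfl⟩ := hb
      exact hwinj _ _ (Nat.mod_lt _ hQh) (Nat.mod_lt _ hQh) hab
  obtain ⟨w, hwi, hwZ, hwK⟩ := hWj ⟨j, hj⟩ (F.image wd) hZc
  have hβ : ∀ i, ∃ β ∈ F, wd β = w i := by
    intro i
    exact Finset.mem_image.mp (hwZ i)
  choose β hβF hβw using hβ
  have hβi : ∀ i i', i ≠ i' → β i ≠ β i' := by
    intro i i' hii h1
    apply hii
    apply hwi
    rw [← hβw, ← hβw, h1]
  have htrap := hwK (fun i => fun x : Fin r => v (r * β i + x)) (by
    intro i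
    apply hO' (w i)
    intro x _
    have h1 := hv (r * β i + x)
    have h2 : (r * β i + x) / r = β i := by
      rw [Nat.mul_add_div hr0, Nat.div_eq_of_lt x.2, add_zero]
    have h3 : (r * β i + x) % r = x := by
      rw [Nat.mul_add_mod, Nat.mod_eq_of_lt x.2]
    simp only [h2, h3, Fin.eta, hβw] at h1
    exact h1)
  have hmem : ∀ i, β i < (n + 1) / r ∧ (r * β i + j + 1 ∉ C ∧ r * β i + j + 2 ∉ C) := by
    intro i
    have := hβF i
    rw [hF, Finset.mem_filter, Finset.mem_range] at this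
    exact this
  refine window n v hchain C hU (fun i => r * β i + j) ?_ ?_ (fun i => (hmem i).2) ?_
  · intro i i' hii
    have h1 := hβi i i' hii
    rcases lt_or_gt_of_ne h1 with h2 | h2
    · left
      have : r * (β i + 1) ≤ r * β i' := Nat.mul_le_mul_left r h2
      rw [mul_add] at this
      show r * β i + j + 4 ≤ r * β i' + j
      omega
    · right
      have : r * (β i' + 1) ≤ r * β i := Nat.mul_le_mul_left r h2
      rw [mul_add] at this
      show r * β i' + j + 4 ≤ r * β i + j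
      omega
  · intro i
    have h1 : (β i + 1) * r ≤ n + 1 :=
      (Nat.mul_le_mul_right r (hmem i).1).trans (Nat.div_mul_le_self _ _)
    have h2 : (β i + 1) * r = r * β i + r := by ring
    rw [h2] at h1
    show r * β i + j + 3 ≤ n
    omega
  · have h1 : (fun i => (fun k : Fin 4 => v (r * β i + j + k) : T3)) =
        fun i => Lower.pr (r := r) ⟨j, hj⟩ (fun x : Fin r => v (r * β i + x)) := by
      funext i k
      simp only [Lower.pr, add_assoc]
    rw [h1]
    exact htrap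

end Pool.Agent.Y873.CC
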